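import Pool.Agent.T9h83.RG.Dfs

/-!
# Long paths and long cycles in `G(n,p)` slightly above `1/n`
-/

set_option autoImplicit false

namespace Pool.Agent.T9h83.RG

open Finset Pool.Agent.R980
open scoped Classical

variable {n : ℕ}

/-- `f 0, f 1, …, f (L-1)` is a path of `G` -/
def IsPath (G : SimpleGraph (Fin n)) (f : ℕ → Fin n) (L : ℕ) : Prop :=
  Set.InjOn f (Set.Iio L) ∧ ∀ t, t + 1 < L → G.Adj (f t) (f (t + 1))

/-- `w` runs through a cycle of `G` with `k + 1` vertices -/
def IsCyc (G : SimpleGraph (Fin n)) (k : ℕ) (w : Fin (k + 1) → Fin n) : Prop :=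
  2 ≤ k ∧ Function.Injective w ∧ ∀ i, G.Adj (w i) (w (i + 1))

lemma path_of_list [NeZero n] {G : SimpleGraph (Fin n)} {l : List (Fin n)} (h1 : l.Nodup)
    (h2 : l.IsChain G.Adj) : IsPath G (fun t => l.getD t 0) l.length := by
  constructor
  · intro s hs t ht hst
    have hs' : s < l.length := hs
    have ht' : t < l.length := ht
    simp only [List.getD_eq_getElem _ _ hs', List.getD_eq_getElem _ _ ht'] at hst
    exact (List.Nodup.getElem_inj_iff h1).1 hst
  · intro t ht
    have h3 := List.isChain_iff_getElem.1 h2 t ht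
    simp only [List.getD_eq_getElem _ _ ht, List.getD_eq_getElem _ _ (show t < l.length by omega)]
    exact h3

set_option maxHeartbeats 2000000 in
/-- long path, with high probability -/
lemma long_path [NeZero n] {δ p : ℝ} (hδ0 : 0 < δ) (hδ1 : δ ≤ 1 / 4) (hn : 100 ≤ δ ^ 2 * n)
    (hp : p = (1 + δ) / n) :
    bex p (fun x : Edge n → Bool => if (∃ (f : ℕ → Fin n) (L : ℕ), δ ^ 2 * n / 32 ≤ L ∧
      IsPath (ofBool x) f L) then (0 : ℝ) else 1) ≤ Real.exp (-(δ ^ 3 * n / 4096)) := by
  have hn0 : (0 : ℝ) < n := by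
    have : 0 < δ ^ 2 := by positivity
    by_contra hcon
    have : (n : ℝ) = 0 := le_antisymm (by linarith) (Nat.cast_nonneg n)
    rw [this] at hn
    linarith
  have hn1 : (1600 : ℝ) ≤ n := by
    have h1 : δ ^ 2 ≤ 1 / 16 := by nlinarith
    have h2 : δ ^ 2 * n ≤ 1 / 16 * n := mul_le_mul_of_nonneg_right h1 hn0.le
    linarith
  have hn2 : 1600 ≤ n := by exact_mod_cast hn1
  obtain ⟨m, hm⟩ : ∃ m, m = ⌊δ * n / 2⌋₊ := ⟨_, rfl⟩
  have hm1 : (m : ℝ) ≤ δ * n / 2 := by rw [hm]; exact Nat.floor_le (by positivity)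
  have hm2 : δ * n / 2 < m + 1 := by rw [hm]; exact Nat.lt_floor_add_one _
  obtain ⟨s0, hs0⟩ : ∃ s0, s0 = δ ^ 2 * n / 32 := ⟨_, rfl⟩
  have hs1 : 0 < s0 := by rw [hs0]; positivity
  have hs2 : δ ^ 2 * n ≤ 1 / 4 * (δ * n) := by nlinarith [mul_nonneg hδ0.le hn0.le]
  obtain ⟨N, hN⟩ : ∃ N, N = ⌊((m : ℝ) - 1 - s0) * (n - m)⌋₊ := ⟨_, rfl⟩
  have hδn : 400 ≤ δ * n := by nlinarith [mul_nonneg hδ0.le hn0.le]
  have hmn : (m : ℝ) ≤ n / 8 := by nlinarith [mul_nonneg hδ0.le hn0.le]
  have hs3 : 0 ≤ (m : ℝ) - 1 - s0 := by rw [hs0]; linarith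
  have hN1 : (N : ℝ) ≤ ((m : ℝ) - 1 - s0) * (n - m) := by
    rw [hN]
    exact Nat.floor_le (mul_nonneg hs3 (by linarith))
  have hN2 : ((m : ℝ) - 1 - s0) * (n - m) < N + 1 := by
    rw [hN]
    exact Nat.lt_floor_add_one _
  have hNc : N ≤ Fintype.card (Edge n) := by
    rw [card_Edge]
    have h1 : (N : ℝ) ≤ (n : ℝ) * (n - 1) / 2 := by
      refine hN1.trans ?_
      have h2 : ((m : ℝ) - 1 - s0) * (n - m) ≤ n / 8 * n :=
        mul_le_mul (by linarith) (by linarith [Nat.cast_nonneg (α := ℝ) m]) (by linarith)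
          (by linarith)
      nlinarith
    have h2 : ((n.choose 2 : ℕ) : ℝ) = (n : ℝ) * (n - 1) / 2 := Nat.cast_choose_two ℝ n
    rw [← h2] at h1
    exact_mod_cast h1
  have hm3 : m + 3 ≤ n := by
    have : (m : ℝ) + 3 ≤ n := by linarith
    exact_mod_cast this
  have hp0 : 0 ≤ p := by rw [hp]; positivity
  have hp1 : p ≤ 1 := by
    rw [hp, div_le_one hn0]
    linarith
  have he : Nonempty (Edge n) := by
    rw [← Fintype.card_pos_iff, card_Edge]
    exact Nat.choose_pos (by omega)
  obtain ⟨e0⟩ := he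
  have hkey : (m : ℝ) ≤ (1 - 4 * (δ / 32)) * (p * N) := by
    have h1 : (m : ℝ) - 1 - s0 - 1 / n ≤ (m : ℝ) - 1 - s0 := by
      have : (0 : ℝ) < 1 / n := by positivity
      linarith
    have h2 : (1 + δ) * (((m : ℝ) - 1 - s0) * (1 - δ / 2) - 1) ≤ p * N := by
      have h3 : ((m : ℝ) - 1 - s0) * (n * (1 - δ / 2)) - 1 ≤ N := by
        have h4 : ((m : ℝ) - 1 - s0) * (n * (1 - δ / 2)) ≤ ((m : ℝ) - 1 - s0) * (n - m) :=
          mul_le_mul_of_nonneg_left (by linarith) hs3
        linarith
      have h4 : p * (((m : ℝ) - 1 - s0) * (n * (1 - δ / 2)) - 1) ≤ p * N :=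
        mul_le_mul_of_nonneg_left h3 hp0
      refine le_trans ?_ h4
      have h5 : p * (((m : ℝ) - 1 - s0) * (n * (1 - δ / 2)) - 1) =
          (1 + δ) * (((m : ℝ) - 1 - s0) * (1 - δ / 2) - 1 / n) := by
        rw [hp]
        field_simp
      rw [h5]
      refine mul_le_mul_of_nonneg_left ?_ (by linarith)
      have : 1 / (n : ℝ) ≤ 1 := by
        rw [div_le_one hn0]
        linarith
      linarith
    have h3 : (1 - 4 * (δ / 32)) * ((1 + δ) * (((m : ℝ) - 1 - s0) * (1 - δ / 2) - 1)) ≤
        (1 - 4 * (δ / 32)) * (p * N) :=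
      mul_le_mul_of_nonneg_left h2 (by linarith)
    refine le_trans ?_ h3
    have h4 : (m : ℝ) * (15 / 64 * δ) ≥ 5 / 4 * s0 + 5 / 2 := by
      have h5 : (δ * n / 2 - 1) * (15 / 64 * δ) ≤ (m : ℝ) * (15 / 64 * δ) :=
        mul_le_mul_of_nonneg_right (by linarith) (by positivity)
      have h6 : (δ * n / 2 - 1) * (15 / 64 * δ) = 15 / 128 * (δ ^ 2 * n) - 15 / 64 * δ := by ring
      rw [hs0]
      linarith
    have hA1 : 1 + 15 / 64 * δ ≤ (1 - 4 * (δ / 32)) * (1 + δ) * (1 - δ / 2) := by
      nlinarith [mul_nonneg hδ0.le hδ0.le, mul_nonneg (mul_nonneg hδ0.le hδ0.le) hδ0.le,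
        mul_nonneg hδ0.le (sub_nonneg.2 hδ1)]
    have hA2 : (1 - 4 * (δ / 32)) * (1 + δ) ≤ 5 / 4 := by
      nlinarith [mul_nonneg hδ0.le hδ0.le]
    have h5 : (1 - 4 * (δ / 32)) * ((1 + δ) * (((m : ℝ) - 1 - s0) * (1 - δ / 2) - 1)) =
        (1 - 4 * (δ / 32)) * (1 + δ) * (1 - δ / 2) * ((m : ℝ) - 1 - s0) -
        (1 - 4 * (δ / 32)) * (1 + δ) := by ring
    rw [h5]
    have h6 : (1 + 15 / 64 * δ) * ((m : ℝ) - 1 - s0) ≤
        (1 - 4 * (δ / 32)) * (1 + δ) * (1 - δ / 2) * ((m : ℝ) - 1 - s0) :=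
      mul_le_mul_of_nonneg_right hA1 hs3
    have h7 : 15 / 64 * δ * (1 + s0) ≤ 1 / 4 * (1 + s0) :=
      mul_le_mul_of_nonneg_right (by linarith) (by linarith)
    nlinarith [h4, h6, h7]
  have htail := (dfs e0).tail (p := p) (τ := δ / 32) hp0 hp1 (by positivity) (by linarith)
    (N := N) (fun x k hk => dfs_fresh e0 x k (by omega)) (y := m) (Nat.cast_nonneg m) hkey
  refine le_trans (bex_mono hp0 hp1 fun x => ?_) (htail.trans ?_)
  · by_cases hx : ((dfs e0).pos x N : ℝ) ≤ m
    · rw [if_pos hx]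
      split_ifs <;> norm_num
    · rw [if_neg hx, if_pos]
      rw [not_le] at hx
      have hx' : m < (dfs e0).pos x N := by exact_mod_cast hx
      obtain ⟨l, hl1, hl2, hl3⟩ := exists_path e0 x hNc hm3 hx'
      refine ⟨fun t => l.getD t 0, l.length, ?_, path_of_list hl1 hl2⟩
      rw [← hs0]
      by_contra hcon
      rw [not_le] at hcon
      have h1 : ((m - 1 - l.length : ℕ) : ℝ) = (m : ℝ) - 1 - l.length := by
        have h2 : (l.length : ℝ) ≤ (m : ℝ) - 1 := by linarith
        have h3 : l.length + 1 ≤ m := by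
          have : (l.length : ℝ) + 1 ≤ m := by linarith
          exact_mod_cast this
        rw [Nat.cast_sub (by omega), Nat.cast_sub (by omega), Nat.cast_one]
      have h2 : ((n - m : ℕ) : ℝ) = (n : ℝ) - m := by
        rw [Nat.cast_sub (by omega)]
      have h3 : (((m - 1 - l.length) * (n - m) : ℕ) : ℝ) ≤ N := by exact_mod_cast hl3
      rw [Nat.cast_mul, h1, h2] at h3
      have h4 : ((m : ℝ) - 1 - s0) * (n - m) < ((m : ℝ) - 1 - l.length) * (n - m) :=
        mul_lt_mul_of_pos_right (by linarith) (by linarith)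
      linarith
  · refine Real.exp_le_exp.2 ?_
    have h1 : (m : ℝ) ≤ p * N := by
      refine hkey.trans ?_
      have : 0 ≤ p * N := mul_nonneg hp0 (Nat.cast_nonneg N)
      nlinarith
    have h2 : δ * n / 4 ≤ m := by linarith
    have h3 : (δ / 32) ^ 2 * (δ * n / 4) ≤ (δ / 32) ^ 2 * (p * N) :=
      mul_le_mul_of_nonneg_left (by linarith) (by positivity)
    have h4 : (δ / 32) ^ 2 * (δ * n / 4) = δ ^ 3 * n / 4096 := by ring
    linarith

/-- two rounds of exposure -/
lemma two_rounds {E : Type} [Fintype E] [DecidableEq E] {p p1 p2 : ℝ}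
    (h : 1 - p = (1 - p1) * (1 - p2)) (f : (E → Bool) → ℝ) :
    bex p f = bex p1 (fun x => bex p2 (fun y => f (fun e => x e || y e))) := by
  have h1 : ∀ z : E → Bool, bex p1 (fun x => bex p2 (fun y =>
      if z = (fun e => x e || y e) then (1 : ℝ) else 0)) = bw p z := by
    intro z
    have h2 : ∀ x : E → Bool, bex p2 (fun y => if z = (fun e => x e || y e) then (1 : ℝ) else 0) =
        ∏ e, (if x e = true then (if z e = true then 1 else 0) else
          (if z e = true then p2 else 1 - p2)) := by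
      intro x
      have h3 : (fun y : E → Bool => if z = (fun e => x e || y e) then (1 : ℝ) else 0) =
          fun y => ∏ e, (fun (e : E) (b : Bool) => if z e = (x e || b) then (1 : ℝ) else 0) e (y e) := by
        funext y
        by_cases hz : z = (fun e => x e || y e)
        · rw [if_pos hz]
          symm
          refine Finset.prod_eq_one fun e _ => ?_
          beta_reduce
          rw [if_pos (congrFun hz e)]
        · rw [if_neg hz]
          symm
          have : ∃ e, ¬ z e = (x e || y e) := by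
            by_contra hcon
            push Not at hcon
            exact hz (funext hcon)
          obtain ⟨e, he⟩ := this
          exact Finset.prod_eq_zero (Finset.mem_univ e) (if_neg he)
      rw [h3, bex_prod p2 (fun (e : E) (b : Bool) => if z e = (x e || b) then (1 : ℝ) else 0)]
      refine Finset.prod_congr rfl fun e _ => ?_
      cases hx : x e <;> cases hz : z e <;> simp
    have h4 : (fun x : E → Bool => bex p2 (fun y =>
        if z = (fun e => x e || y e) then (1 : ℝ) else 0)) = fun x => ∏ e,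
        (fun (e : E) (b : Bool) => if b = true then (if z e = true then (1 : ℝ) else 0) else
          (if z e = true then p2 else 1 - p2)) e (x e) := by
      funext x
      exact h2 x
    rw [h4, bex_prod p1 (fun (e : E) (b : Bool) => if b = true then
      (if z e = true then (1 : ℝ) else 0) else (if z e = true then p2 else 1 - p2)), bw]
    refine Finset.prod_congr rfl fun e _ => ?_
    cases hz : z e
    · simp only [if_true, Bool.false_eq_true, if_false, mul_zero, zero_add]
      linarith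
    · simp only [if_true, Bool.false_eq_true, if_false, mul_one]
      linarith
  have h2 : ∀ g : (E → Bool) → ℝ, g = fun w => ∑ z, g z * (if z = w then (1 : ℝ) else 0) := by
    intro g
    funext w
    rw [Finset.sum_eq_single w]
    · simp
    · intro b _ hb
      rw [if_neg hb, mul_zero]
    · intro hw
      exact absurd (Finset.mem_univ _) hw
  have h3 : bex p1 (fun x => bex p2 (fun y => f (fun e => x e || y e))) =
      ∑ z, f z * bex p1 (fun x => bex p2 (fun y =>
        if z = (fun e => x e || y e) then (1 : ℝ) else 0)) := by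
    have h4 : ∀ x : E → Bool, bex p2 (fun y => f (fun e => x e || y e)) =
        ∑ z, f z * bex p2 (fun y => if z = (fun e => x e || y e) then (1 : ℝ) else 0) := by
      intro x
      have h5 : (fun y : E → Bool => f (fun e => x e || y e)) =
          fun y => ∑ z, f z * (if z = (fun e => x e || y e) then (1 : ℝ) else 0) := by
        funext y
        exact congrFun (h2 f) (fun e => x e || y e)
      rw [h5]
      unfold bex
      simp only [Finset.mul_sum]
      rw [Finset.sum_comm]
      refine Finset.sum_congr rfl fun z _ => Finset.sum_congr rfl fun y _ => ?_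
      ring
    simp only [h4]
    unfold bex
    simp only [Finset.mul_sum]
    rw [Finset.sum_comm]
    refine Finset.sum_congr rfl fun z _ => Finset.sum_congr rfl fun x _ =>
      Finset.sum_congr rfl fun y _ => ?_
    ring
  rw [h3]
  unfold bex
  refine Finset.sum_congr rfl fun z _ => ?_
  have h4 := h1 z
  unfold bex at h4
  rw [h4]
  ring

/-- a path together with an edge joining its first third to its last third contains a long
cycle -/
lemma cyc_of_path {G : SimpleGraph (Fin n)} {f : ℕ → Fin n} {L i j : ℕ} (h : IsPath G f L)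
    (hj : j < L) (hij : i + 2 ≤ j) (hadj : G.Adj (f j) (f i)) :
    IsCyc G (j - i) (fun t => f (i + t)) := by
  refine ⟨by omega, ?_, ?_⟩
  · intro a b hab
    have h1 := h.1 (show i + (a : ℕ) ∈ Set.Iio L from by
      have := a.2
      show i + (a : ℕ) < L
      omega) (show i + (b : ℕ) ∈ Set.Iio L from by
      have := b.2
      show i + (b : ℕ) < L
      omega) hab
    exact Fin.ext (by omega)
  · intro a
    by_cases ha : (a : ℕ) = j - i
    · have h1 : a = Fin.last (j - i) := Fin.ext ha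
      have h2 : ((a + 1 : Fin (j - i + 1)) : ℕ) = 0 := by
        rw [h1, Fin.last_add_one]
        rfl
      dsimp only
      rw [h2, ha, show i + (j - i) = j by omega, add_zero]
      exact hadj
    · have h1 : (a : ℕ) < j - i := by
        have := a.2
        omega
      have h2 : ((a + 1 : Fin (j - i + 1)) : ℕ) = a + 1 :=
        Fin.val_add_one_of_lt (by rw [Fin.lt_def]; exact h1)
      dsimp only
      rw [h2, ← add_assoc]
      exact h.2 _ (by omega)

lemma path_mono {x y : Edge n → Bool} {f : ℕ → Fin n} {L : ℕ} (h : IsPath (ofBool x) f L) :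
    IsPath (ofBool fun e => x e || y e) f L := by
  refine ⟨h.1, fun t ht => ?_⟩
  obtain ⟨h1, h2⟩ := h.2 t ht
  refine ⟨h1, ?_⟩
  change (x ⟨s(f t, f (t + 1)), h1⟩ || y ⟨s(f t, f (t + 1)), h1⟩) = true
  rw [h2, Bool.true_or]

/-- the second round closes a long cycle -/
lemma close {x : Edge n → Bool} {f : ℕ → Fin n} {L a : ℕ} (h : IsPath (ofBool x) f L)
    (ha : 3 * a ≤ L) (ha2 : 2 ≤ a) {p : ℝ} (h0 : 0 ≤ p) (h1 : p ≤ 1) :
    bex p (fun y : Edge n → Bool => if (∃ k, ∃ w : Fin (k + 1) → Fin n, a ≤ k ∧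
      IsCyc (ofBool fun e => x e || y e) k w) then (0 : ℝ) else 1) ≤ Real.exp (-(p * a ^ 2)) := by
  -- the pairs between the two thirds
  have hne : ∀ q : ℕ × ℕ, q ∈ Finset.range a ×ˢ Finset.range a →
      ¬ (s(f q.1, f (L - 1 - q.2)) : Sym2 (Fin n)).IsDiag := by
    intro q hq
    rw [Finset.mem_product, Finset.mem_range, Finset.mem_range] at hq
    rw [Sym2.mk_isDiag_iff]
    intro h2
    have h3 := h.1 (show q.1 ∈ Set.Iio L from by show q.1 < L; omega)
      (show L - 1 - q.2 ∈ Set.Iio L from by show L - 1 - q.2 < L; omega) h2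
    omega
  obtain ⟨F, hF⟩ : ∃ F : Finset (Edge n), F = (Finset.range a ×ˢ Finset.range a).attach.image
      fun q => ⟨s(f q.1.1, f (L - 1 - q.1.2)), hne q.1 q.2⟩ := ⟨_, rfl⟩
  have hcard : F.card = a ^ 2 := by
    rw [hF, Finset.card_image_of_injective, Finset.card_attach, Finset.card_product,
      Finset.card_range, sq]
    rintro ⟨⟨b, c⟩, hq⟩ ⟨⟨b', c'⟩, hq'⟩ h2
    have h3 : (s(f b, f (L - 1 - c)) : Sym2 (Fin n)) = s(f b', f (L - 1 - c')) :=
      congrArg Subtype.val h2
    rw [Finset.mem_product, Finset.mem_range, Finset.mem_range] at hq hq'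
    dsimp only at hq hq'
    have hin : ∀ t, t < L → t ∈ Set.Iio L := fun t ht => ht
    rcases Sym2.eq_iff.1 h3 with ⟨h4, h5⟩ | ⟨h4, h5⟩
    · have h6 := h.1 (hin b (by omega)) (hin b' (by omega)) h4
      have h7 := h.1 (hin (L - 1 - c) (by omega)) (hin (L - 1 - c') (by omega)) h5
      have h8 : c = c' := by omega
      subst h6 h8
      rfl
    · have h6 := h.1 (hin b (by omega)) (hin (L - 1 - c') (by omega)) h4
      omega
  have hb : bex p (fun y : Edge n → Bool => (0 : ℝ) ^ (F.filter fun e => y e = true).card) ≤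
      Real.exp (-(p * a ^ 2)) := by
    rw [R978UI.bex_pow_card, hcard]
    have h2 : 0 ≤ 1 + (0 - 1) * p := by linarith
    have h3 : 1 + (0 - 1) * p ≤ Real.exp (-p) := by
      have := Real.add_one_le_exp (-p)
      linarith
    refine (pow_le_pow_left₀ h2 h3 _).trans_eq ?_
    rw [← Real.exp_nat_mul]
    congr 1
    push_cast
    ring
  refine le_trans (bex_mono h0 h1 fun y => ?_) hb
  by_cases hy : (F.filter fun e => y e = true) = ∅
  · rw [hy, Finset.card_empty, pow_zero]
    split_ifs <;> norm_num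
  · rw [if_pos]
    · positivity
    · obtain ⟨e, he⟩ := Finset.nonempty_iff_ne_empty.2 hy
      rw [Finset.mem_filter, hF, Finset.mem_image] at he
      obtain ⟨⟨⟨⟨b, c⟩, hq⟩, -, rfl⟩, hye⟩ := he
      have hq2 := hq
      rw [Finset.mem_product, Finset.mem_range, Finset.mem_range] at hq2
      dsimp only at hq2
      refine ⟨L - 1 - c - b, fun t => f (b + t), by omega, ?_⟩
      refine cyc_of_path (path_mono h) (j := L - 1 - c) (i := b) (by omega) (by omega) ?_
      refine SimpleGraph.Adj.symm ?_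
      refine ⟨hne _ hq, ?_⟩
      change (x ⟨s(f b, f (L - 1 - c)), hne _ hq⟩ || y ⟨s(f b, f (L - 1 - c)), hne _ hq⟩) = true
      have hye' : y ⟨s(f b, f (L - 1 - c)), hne _ hq⟩ = true := hye
      rw [hye', Bool.or_true]

end Pool.Agent.T9h83.RG
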