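import Pool.Agent.T9h83.RG.Machine

/-!
# Depth first search, edge by edge
-/

set_option autoImplicit false

namespace Pool.Agent.T9h83.RG

open Finset Pool.Agent.R980
open scoped Classical

variable {n : ℕ}

/-- state of the search: the stack, the unvisited vertices and the queried pairs -/
structure DSt (n : ℕ) where
  U : List (Fin n)
  T : Finset (Fin n)
  Q : Finset (Edge n)

/-- the pair `u, y` has not been queried -/
def fr (Q : Finset (Edge n)) (u y : Fin n) : Prop :=
  ∃ h : ¬ (s(u, y) : Sym2 (Fin n)).IsDiag, (⟨s(u, y), h⟩ : Edge n) ∉ Q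

/-- unvisited vertices for which the pair with `u` is fresh -/
noncomputable def fn (Q : Finset (Edge n)) (T : Finset (Fin n)) (u : Fin n) : Finset (Fin n) :=
  T.filter fun y => fr Q u y

/-- the stack after popping exhausted vertices -/
noncomputable def pop (s : DSt n) : List (Fin n) := s.U.dropWhile fun u => decide (fn s.Q s.T u = ∅)

/-- the stack after popping, with a new root if it is empty -/
noncomputable def nU (s : DSt n) : List (Fin n) :=
  if pop s = [] then (if h : s.T.Nonempty then [h.choose] else []) else pop s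

/-- the unvisited vertices after popping and possibly choosing a new root -/
noncomputable def nT (s : DSt n) : Finset (Fin n) :=
  if pop s = [] then (if h : s.T.Nonempty then s.T.erase h.choose else ∅) else s.T

/-- the next pair to be queried by the search -/
noncomputable def tgt (s : DSt n) : Option (Fin n × Fin n) :=
  match nU s with
  | [] => none
  | u :: _ => if h : (fn s.Q (nT s) u).Nonempty then some (u, h.choose) else none

/-- the pair as a coordinate -/
noncomputable def mk (e0 : Edge n) (u y : Fin n) : Edge n :=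
  if h : ¬ (s(u, y) : Sym2 (Fin n)).IsDiag then ⟨s(u, y), h⟩ else e0

noncomputable def nxt (e0 : Edge n) (s : DSt n) : Edge n :=
  match tgt s with
  | some (u, y) => mk e0 u y
  | none => if h : (s.Qᶜ : Finset (Edge n)).Nonempty then h.choose else e0

noncomputable def upd (e0 : Edge n) (s : DSt n) (b : Bool) : DSt n :=
  match tgt s with
  | some (_, y) =>
    if b = true then ⟨y :: nU s, (nT s).erase y, insert (nxt e0 s) s.Q⟩
    else ⟨nU s, nT s, insert (nxt e0 s) s.Q⟩
  | none => ⟨nU s, nT s, insert (nxt e0 s) s.Q⟩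

/-- depth first search -/
noncomputable def dfs (e0 : Edge n) : Machine (Edge n) (DSt n) where
  init := ⟨[], univ, ∅⟩
  nxt := nxt e0
  upd := upd e0

/-- the invariants -/
structure Inv (G : SimpleGraph (Fin n)) (s : DSt n) : Prop where
  nodup : s.U.Nodup
  disj : ∀ v ∈ s.U, v ∉ s.T
  chain : s.U.IsChain G.Adj
  done : ∀ v, v ∉ s.U → v ∉ s.T → ∀ y ∈ s.T, ¬ fr s.Q v y
  fresh : ∀ y ∈ s.T, ∀ z ∈ s.T, y ≠ z → fr s.Q y z

lemma pop_suffix (s : DSt n) : pop s <:+ s.U := List.dropWhile_suffix _

lemma fr_ne {Q : Finset (Edge n)} {u y : Fin n} (h : fr Q u y) : u ≠ y := by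
  obtain ⟨h, -⟩ := h
  rintro rfl
  exact h (by simp)

lemma fr_symm {Q : Finset (Edge n)} {u y : Fin n} (h : fr Q u y) : fr Q y u := by
  obtain ⟨h, h2⟩ := h
  have h' : ¬ (s(y, u) : Sym2 (Fin n)).IsDiag := by rw [Sym2.eq_swap]; exact h
  refine ⟨h', ?_⟩
  have : (⟨s(y, u), h'⟩ : Edge n) = ⟨s(u, y), h⟩ := Subtype.ext Sym2.eq_swap
  rw [this]
  exact h2

/-- facts about the normalised state -/
structure NInv (G : SimpleGraph (Fin n)) (s : DSt n) : Prop where
  nodup : (nU s).Nodup
  disj : ∀ v ∈ nU s, v ∉ nT s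
  chain : (nU s).IsChain G.Adj
  done : ∀ v, v ∉ nU s → v ∉ nT s → ∀ y ∈ nT s, ¬ fr s.Q v y
  fresh : ∀ y ∈ nT s, ∀ z ∈ nT s, y ≠ z → fr s.Q y z
  sub : nT s ⊆ s.T
  card : s.T.card ≤ (nT s).card + 1
  ne : 2 ≤ s.T.card → ∃ u rest, nU s = u :: rest ∧ (fn s.Q (nT s) u).Nonempty

lemma ninv {G : SimpleGraph (Fin n)} {s : DSt n} (h : Inv G s) : NInv G s := by
  obtain ⟨h1, h2, h3, h4, h5⟩ := h
  have hsuf := pop_suffix s
  by_cases hp : pop s = []
  · -- all vertices of the stack are exhausted
    have hex : ∀ v ∈ s.U, ∀ y ∈ s.T, ¬ fr s.Q v y := by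
      intro v hv y hy hf
      have h6 : v ∈ s.U.takeWhile (fun u => decide (fn s.Q s.T u = ∅)) := by
        have h7 := List.takeWhile_append_dropWhile (p := fun u => decide (fn s.Q s.T u = ∅)) (l := s.U)
        rw [pop] at hp
        rw [hp, List.append_nil] at h7
        rw [h7]
        exact hv
      have h7 := List.mem_takeWhile_imp h6
      simp only [decide_eq_true_eq] at h7
      have h8 : y ∈ fn s.Q s.T v := by
        rw [fn, Finset.mem_filter]
        exact ⟨hy, hf⟩
      rw [h7] at h8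
      simp at h8
    by_cases hT : s.T.Nonempty
    · have e1 : nU s = [hT.choose] := by rw [nU, if_pos hp, dif_pos hT]
      have e2 : nT s = s.T.erase hT.choose := by rw [nT, if_pos hp, dif_pos hT]
      have hr := hT.choose_spec
      obtain ⟨r, hr'⟩ : ∃ r, r = hT.choose := ⟨_, rfl⟩
      rw [← hr'] at e1 e2 hr
      refine ⟨?_, ?_, ?_, ?_, ?_, ?_, ?_, ?_⟩
      · rw [e1]; simp
      · rw [e1, e2]
        intro v hv
        rw [List.mem_singleton] at hv
        rw [hv]
        exact Finset.notMem_erase _ _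
      · rw [e1]; exact List.isChain_singleton _
      · rw [e1, e2]
        intro v hv hv2 y hy
        rw [List.mem_singleton] at hv
        have hv3 : v ∉ s.T := fun h => hv2 (Finset.mem_erase.2 ⟨hv, h⟩)
        by_cases hvU : v ∈ s.U
        · exact hex v hvU y (Finset.mem_of_mem_erase hy)
        · exact h4 v hvU hv3 y (Finset.mem_of_mem_erase hy)
      · rw [e2]
        intro y hy z hz hyz
        exact h5 y (Finset.mem_of_mem_erase hy) z (Finset.mem_of_mem_erase hz) hyz
      · rw [e2]; exact Finset.erase_subset _ _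
      · rw [e2, Finset.card_erase_of_mem hr]
        omega
      · intro hc
        refine ⟨r, [], e1, ?_⟩
        have h6 : (s.T.erase r).Nonempty := by
          rw [← Finset.card_pos, Finset.card_erase_of_mem hr]
          omega
        obtain ⟨y, hy⟩ := h6
        refine ⟨y, ?_⟩
        rw [e2, fn, Finset.mem_filter]
        exact ⟨hy, h5 r hr y (Finset.mem_of_mem_erase hy) (Finset.ne_of_mem_erase hy).symm⟩
    · have e1 : nU s = [] := by rw [nU, if_pos hp, dif_neg hT]
      have e2 : nT s = ∅ := by rw [nT, if_pos hp, dif_neg hT]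
      rw [Finset.not_nonempty_iff_eq_empty] at hT
      refine ⟨?_, ?_, ?_, ?_, ?_, ?_, ?_, ?_⟩
      · rw [e1]; simp
      · rw [e1]; simp
      · rw [e1]; simp
      · rw [e2]; simp
      · rw [e2]; simp
      · rw [e2]; simp
      · rw [e2, hT]; simp
      · intro hc
        rw [hT] at hc
        simp at hc
  · have e1 : nU s = pop s := by rw [nU, if_neg hp]
    have e2 : nT s = s.T := by rw [nT, if_neg hp]
    refine ⟨?_, ?_, ?_, ?_, ?_, ?_, ?_, ?_⟩
    · rw [e1]; exact h1.sublist hsuf.sublist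
    · rw [e1, e2]
      intro v hv
      exact h2 v (hsuf.subset hv)
    · rw [e1]; exact h3.suffix hsuf
    · rw [e1, e2]
      intro v hv hv2 y hy hf
      by_cases hvU : v ∈ s.U
      · have h6 : v ∈ s.U.takeWhile (fun u => decide (fn s.Q s.T u = ∅)) := by
          have h7 := List.takeWhile_append_dropWhile (p := fun u => decide (fn s.Q s.T u = ∅)) (l := s.U)
          rw [← h7] at hvU
          rcases List.mem_append.1 hvU with h8 | h8
          · exact h8
          · exact absurd h8 hv
        have h7 := List.mem_takeWhile_imp h6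
        simp only [decide_eq_true_eq] at h7
        have h8 : y ∈ fn s.Q s.T v := by
          rw [fn, Finset.mem_filter]
          exact ⟨hy, hf⟩
        rw [h7] at h8
        simp at h8
      · exact h4 v hvU hv2 y hy hf
    · rw [e2]; exact h5
    · rw [e2]
    · rw [e2]; omega
    · intro _
      rw [e1, e2]
      rcases hr : pop s with _ | ⟨u, rest⟩
      · exact absurd hr hp
      · refine ⟨u, rest, rfl, ?_⟩
        rw [Finset.nonempty_iff_ne_empty]
        intro h7
        have h8 : s.U.dropWhile (fun u => decide (fn s.Q s.T u = ∅)) ≠ [] := hp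
        have h9 := List.head_dropWhile_not (p := fun u => decide (fn s.Q s.T u = ∅)) h8
        have h10 : (s.U.dropWhile (fun u => decide (fn s.Q s.T u = ∅))).head h8 = u := by
          have : ∀ (l : List (Fin n)) (hl : l ≠ []), l = u :: rest → l.head hl = u := by
            rintro l hl rfl
            rfl
          exact this _ h8 hr
        rw [h10] at h9
        simp [h7] at h9

lemma fr_mono {Q Q' : Finset (Edge n)} (h : Q ⊆ Q') {u y : Fin n} (hf : fr Q' u y) : fr Q u y := by
  obtain ⟨h1, h2⟩ := hf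
  exact ⟨h1, fun h3 => h2 (h h3)⟩

lemma tgt_some {s : DSt n} {u y : Fin n} (h : tgt s = some (u, y)) :
    (∃ rest, nU s = u :: rest) ∧ y ∈ nT s ∧ fr s.Q u y := by
  rw [tgt] at h
  rcases hu : nU s with _ | ⟨v, rest⟩
  · rw [hu] at h
    simp at h
  · rw [hu] at h
    simp only at h
    by_cases hf : (fn s.Q (nT s) v).Nonempty
    · rw [dif_pos hf] at h
      have h1 := Finset.mem_filter.1 hf.choose_spec
      simp only [Option.some.injEq, Prod.mk.injEq] at h
      obtain ⟨rfl, rfl⟩ := h
      exact ⟨⟨rest, rfl⟩, h1.1, h1.2⟩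
    · rw [dif_neg hf] at h
      simp at h

lemma mk_eq (e0 : Edge n) {Q : Finset (Edge n)} {u y : Fin n} (h : fr Q u y) :
    (mk e0 u y).1 = s(u, y) ∧ mk e0 u y ∉ Q := by
  obtain ⟨h1, h2⟩ := h
  rw [mk, dif_pos h1]
  exact ⟨rfl, h2⟩

lemma nxt_fresh (e0 : Edge n) (s : DSt n) (h : s.Q.card < Fintype.card (Edge n)) :
    nxt e0 s ∉ s.Q := by
  rw [nxt]
  rcases ht : tgt s with _ | ⟨u, y⟩
  · simp only
    have h1 : (s.Qᶜ : Finset (Edge n)).Nonempty := by
      rw [← Finset.card_pos, Finset.card_compl]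
      omega
    rw [dif_pos h1]
    exact Finset.mem_compl.1 h1.choose_spec
  · simp only
    exact (mk_eq e0 (tgt_some ht).2.2).2

lemma upd_Q (e0 : Edge n) (s : DSt n) (b : Bool) : (upd e0 s b).Q = insert (nxt e0 s) s.Q := by
  rw [upd]
  rcases tgt s with _ | ⟨u, y⟩
  · rfl
  · simp only
    split_ifs <;> rfl

lemma Q_eq (e0 : Edge n) (x : Edge n → Bool) : ∀ k, ((dfs e0).st x k).Q = (dfs e0).Qs x k
  | 0 => by simp [Machine.Qs, Machine.st, dfs]
  | k + 1 => by
    rw [Machine.Qs_succ, ← Q_eq e0 x k, Machine.st]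
    exact upd_Q e0 _ _

lemma Qs_card (e0 : Edge n) (x : Edge n → Bool) : ∀ k, k ≤ Fintype.card (Edge n) →
    ((dfs e0).Qs x k).card = k
  | 0, _ => by simp [Machine.Qs]
  | k + 1, h => by
    have ih := Qs_card e0 x k (by omega)
    rw [Machine.Qs_succ, Finset.card_insert_of_notMem, ih]
    rw [← Q_eq]
    refine nxt_fresh e0 _ ?_
    rw [Q_eq, ih]
    omega

lemma dfs_fresh (e0 : Edge n) (x : Edge n → Bool) (k : ℕ) (h : k < Fintype.card (Edge n)) :
    (dfs e0).q x k ∉ (dfs e0).Qs x k := by
  rw [← Q_eq]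
  refine nxt_fresh e0 _ ?_
  rw [Q_eq, Qs_card e0 x k h.le]
  exact h

/-- one step of the search -/
lemma step (e0 : Edge n) {x : Edge n → Bool} {s : DSt n} (h : Inv (ofBool x) s) :
    Inv (ofBool x) (upd e0 s (x (nxt e0 s))) ∧
    (upd e0 s (x (nxt e0 s))).T ⊆ s.T ∧
    s.T.card ≤ (upd e0 s (x (nxt e0 s))).T.card + 2 ∧
    (2 ≤ s.T.card → (if x (nxt e0 s) = true then 1 else 0) +
      (upd e0 s (x (nxt e0 s))).T.card ≤ s.T.card) := by
  have hN := ninv h
  obtain ⟨n1, n2, n3, n4, n5, n6, n7, n8⟩ := hN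
  have hcard : (nT s).card ≤ s.T.card := Finset.card_le_card n6
  rcases ht : tgt s with _ | ⟨u, y⟩
  · -- fallback
    have e1 : upd e0 s (x (nxt e0 s)) = ⟨nU s, nT s, insert (nxt e0 s) s.Q⟩ := by
      rw [upd, ht]
    rw [e1]
    refine ⟨⟨n1, n2, n3, ?_, ?_⟩, n6, ?_, ?_⟩
    · intro v hv hv2 z hz hf
      exact n4 v hv hv2 z hz (fr_mono (Finset.subset_insert _ _) hf)
    · -- `nT s` has at most one element
      dsimp only
      intro y hy z hz hyz
      exfalso
      have h2 : 2 ≤ s.T.card := by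
        have : 1 < (nT s).card := Finset.one_lt_card.2 ⟨y, hy, z, hz, hyz⟩
        omega
      obtain ⟨u, rest, h3, h4⟩ := n8 h2
      rw [tgt, h3] at ht
      simp only [dif_pos h4] at ht
      exact absurd ht (by simp)
    · dsimp only
      omega
    · intro h2
      exfalso
      obtain ⟨u, rest, h3, h4⟩ := n8 h2
      rw [tgt, h3] at ht
      simp only [dif_pos h4] at ht
      exact absurd ht (by simp)
  · obtain ⟨⟨rest, h1⟩, h2, h3⟩ := tgt_some ht
    have hnx : nxt e0 s = mk e0 u y := by rw [nxt, ht]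
    have hmk := mk_eq e0 h3
    by_cases hb : x (nxt e0 s) = true
    · have e1 : upd e0 s (x (nxt e0 s)) = ⟨y :: nU s, (nT s).erase y, insert (nxt e0 s) s.Q⟩ := by
        rw [upd, ht]
        simp only [if_pos hb]
      have huy : (ofBool x).Adj y u := by
        have h5 : (nxt e0 s).1 ∈ (ofBool x).edgeSet := (mem_ofBool x _).2 hb
        rw [hnx, hmk.1, SimpleGraph.mem_edgeSet] at h5
        exact h5.symm
      rw [e1, if_pos hb]
      refine ⟨⟨?_, ?_, ?_, ?_, ?_⟩, ?_, ?_, ?_⟩
      · dsimp only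
        rw [List.nodup_cons]
        exact ⟨fun h => n2 y h h2, n1⟩
      · dsimp only
        intro v hv
        rcases List.mem_cons.1 hv with rfl | hv
        · exact Finset.notMem_erase _ _
        · exact fun h => n2 v hv (Finset.mem_of_mem_erase h)
      · dsimp only
        rw [h1, List.isChain_cons_cons, ← h1]
        exact ⟨huy, n3⟩
      · dsimp only
        intro v hv hv2 z hz hf
        rw [List.mem_cons, not_or] at hv
        have hv3 : v ∉ nT s := fun h => hv2 (Finset.mem_erase.2 ⟨hv.1, h⟩)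
        exact n4 v hv.2 hv3 z (Finset.mem_of_mem_erase hz)
          (fr_mono (Finset.subset_insert _ _) hf)
      · dsimp only
        intro a ha b hb2 hab
        obtain ⟨h6, h7⟩ := n5 a (Finset.mem_of_mem_erase ha) b (Finset.mem_of_mem_erase hb2) hab
        refine ⟨h6, ?_⟩
        rw [Finset.mem_insert, not_or]
        refine ⟨?_, h7⟩
        rw [hnx]
        intro h8
        have h9 : (s(a, b) : Sym2 (Fin n)) = s(u, y) := by
          rw [← hmk.1]
          exact congrArg Subtype.val h8
        have h10 : u ∈ (s(a, b) : Sym2 (Fin n)) := by rw [h9]; exact Sym2.mem_mk_left _ _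
        have h11 : u ∉ nT s := n2 u (by rw [h1]; exact List.mem_cons_self)
        rcases Sym2.mem_iff.1 h10 with rfl | rfl
        · exact h11 (Finset.mem_of_mem_erase ha)
        · exact h11 (Finset.mem_of_mem_erase hb2)
      · exact (Finset.erase_subset _ _).trans n6
      · dsimp only
        rw [Finset.card_erase_of_mem h2]
        have : 0 < (nT s).card := Finset.card_pos.2 ⟨y, h2⟩
        omega
      · intro _
        dsimp only
        rw [Finset.card_erase_of_mem h2]
        have : 0 < (nT s).card := Finset.card_pos.2 ⟨y, h2⟩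
        omega
    · have e1 : upd e0 s (x (nxt e0 s)) = ⟨nU s, nT s, insert (nxt e0 s) s.Q⟩ := by
        rw [upd, ht]
        simp only [if_neg hb]
      rw [e1, if_neg hb]
      refine ⟨⟨n1, n2, n3, ?_, ?_⟩, n6, ?_, ?_⟩
      · intro v hv hv2 z hz hf
        exact n4 v hv hv2 z hz (fr_mono (Finset.subset_insert _ _) hf)
      · dsimp only
        intro a ha b hb2 hab
        obtain ⟨h6, h7⟩ := n5 a ha b hb2 hab
        refine ⟨h6, ?_⟩
        rw [Finset.mem_insert, not_or]
        refine ⟨?_, h7⟩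
        rw [hnx]
        intro h8
        have h9 : (s(a, b) : Sym2 (Fin n)) = s(u, y) := by
          rw [← hmk.1]
          exact congrArg Subtype.val h8
        have h10 : u ∈ (s(a, b) : Sym2 (Fin n)) := by rw [h9]; exact Sym2.mem_mk_left _ _
        have h11 : u ∉ nT s := n2 u (by rw [h1]; exact List.mem_cons_self)
        rcases Sym2.mem_iff.1 h10 with rfl | rfl
        · exact h11 ha
        · exact h11 hb2
      · dsimp only
        omega
      · intro _
        dsimp only
        omega

lemma inv (e0 : Edge n) (x : Edge n → Bool) : ∀ k, Inv (ofBool x) ((dfs e0).st x k)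
  | 0 => by
    refine ⟨List.nodup_nil, by simp [Machine.st, dfs], by simp [Machine.st, dfs], ?_, ?_⟩
    · intro v _ h
      exact absurd (Finset.mem_univ v) h
    · intro y _ z _ hyz
      refine ⟨by rw [Sym2.mk_isDiag_iff]; exact hyz, ?_⟩
      simp [Machine.st, dfs]
  | k + 1 => (step e0 (inv e0 x k)).1

/-- abbreviations for the run -/
noncomputable abbrev TT (e0 : Edge n) (x : Edge n → Bool) (k : ℕ) : Finset (Fin n) :=
  ((dfs e0).st x k).T

lemma TT_card_succ (e0 : Edge n) (x : Edge n → Bool) (k : ℕ) :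
    (TT e0 x k).card ≤ (TT e0 x (k + 1)).card + 2 := (step e0 (inv e0 x k)).2.2.1

lemma pos_succ (e0 : Edge n) (x : Edge n → Bool) (k : ℕ) (h : k < Fintype.card (Edge n)) :
    (dfs e0).pos x (k + 1) = (dfs e0).pos x k + if x ((dfs e0).q x k) = true then 1 else 0 := by
  rw [Machine.pos, Machine.Qs_succ, Finset.filter_insert, Machine.pos]
  split_ifs with hc
  · rw [Finset.card_insert_of_notMem]
    intro h1
    exact dfs_fresh e0 x k h (Finset.mem_filter.1 h1).1
  · rfl

lemma pos_le (e0 : Edge n) (x : Edge n → Bool) : ∀ k, k ≤ Fintype.card (Edge n) →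
    (∀ j < k, 2 ≤ (TT e0 x j).card) → (dfs e0).pos x k + (TT e0 x k).card ≤ n
  | 0, _, _ => by
    have : (TT e0 x 0).card ≤ n := (Finset.card_le_univ _).trans (by simp)
    simpa [Machine.pos, Machine.Qs] using this
  | k + 1, h, h2 => by
    have ih := pos_le e0 x k (by omega) fun j hj => h2 j (by omega)
    rw [pos_succ e0 x k (by omega)]
    have h3 := (step e0 (inv e0 x k)).2.2.2 (h2 k (by omega))
    have h4 : (TT e0 x (k + 1)).card = (upd e0 ((dfs e0).st x k) (x (nxt e0 ((dfs e0).st x k)))).T.card :=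
      rfl
    have h5 : (dfs e0).q x k = nxt e0 ((dfs e0).st x k) := rfl
    rw [h4, h5]
    have h6 : (TT e0 x k).card = ((dfs e0).st x k).T.card := rfl
    omega

/-- explored vertices are joined by queried pairs to unvisited ones -/
lemma card_mul_le (e0 : Edge n) (x : Edge n → Bool) (k : ℕ) (hk : k ≤ Fintype.card (Edge n)) :
    (n - ((dfs e0).st x k).U.length - (TT e0 x k).card) * (TT e0 x k).card ≤ k := by
  have hI := inv e0 x k
  obtain ⟨s, hs⟩ : ∃ s, s = (dfs e0).st x k := ⟨_, rfl⟩
  have hT : TT e0 x k = s.T := by rw [hs]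
  have hQ : s.Q.card = k := by rw [hs, Q_eq, Qs_card e0 x k hk]
  rw [← hs] at hI ⊢
  rw [hT]
  obtain ⟨S, hS⟩ : ∃ S : Finset (Fin n), S = (s.U.toFinset ∪ s.T)ᶜ := ⟨_, rfl⟩
  have h1 : n - s.U.length - s.T.card ≤ S.card := by
    rw [hS, Finset.card_compl, Fintype.card_fin]
    have h2 := Finset.card_union_le s.U.toFinset s.T
    have h3 := List.toFinset_card_le s.U
    omega
  refine (Nat.mul_le_mul_right _ h1).trans ?_
  rw [← Finset.card_product, ← hQ]
  have hmem : ∀ a ∈ S ×ˢ s.T, a.1 ≠ a.2 ∧ mk e0 a.1 a.2 ∈ s.Q ∧ (mk e0 a.1 a.2).1 = s(a.1, a.2) := by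
    rintro ⟨v, y⟩ ha
    rw [Finset.mem_product] at ha
    obtain ⟨hv, hy⟩ := ha
    dsimp only at hv hy ⊢
    rw [hS, Finset.mem_compl, Finset.mem_union, not_or, List.mem_toFinset] at hv
    have hne : v ≠ y := by rintro rfl; exact hv.2 hy
    have hd : ¬ (s(v, y) : Sym2 (Fin n)).IsDiag := by rw [Sym2.mk_isDiag_iff]; exact hne
    have h4 := hI.done v hv.1 hv.2 y hy
    refine ⟨hne, ?_, ?_⟩
    · by_contra hcon
      refine h4 ⟨hd, ?_⟩
      rw [mk, dif_pos hd] at hcon
      exact hcon
    · rw [mk, dif_pos hd]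
  refine Finset.card_le_card_of_injOn (fun a => mk e0 a.1 a.2) (fun a ha => (hmem a ha).2.1) ?_
  rintro ⟨v, y⟩ ha ⟨v', y'⟩ ha' h
  have h2 := (hmem _ ha).2.2
  have h3 := (hmem _ ha').2.2
  have h4 : (s(v, y) : Sym2 (Fin n)) = s(v', y') := by
    rw [← h2, ← h3]
    exact congrArg Subtype.val h
  have ha1 := Finset.mem_product.1 (Finset.mem_coe.1 ha)
  have ha1' := Finset.mem_product.1 (Finset.mem_coe.1 ha')
  dsimp only at ha1 ha1'
  rcases Sym2.eq_iff.1 h4 with ⟨rfl, rfl⟩ | ⟨rfl, rfl⟩
  · rfl
  · exfalso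
    have h5 := ha1.1
    rw [hS, Finset.mem_compl, Finset.mem_union, not_or] at h5
    exact h5.2 ha1'.2

/-- many positive answers force a long path -/
lemma exists_path (e0 : Edge n) (x : Edge n → Bool) {N m : ℕ} (hN : N ≤ Fintype.card (Edge n))
    (hm : m + 3 ≤ n) (hpos : m < (dfs e0).pos x N) :
    ∃ l : List (Fin n), l.Nodup ∧ l.IsChain (ofBool x).Adj ∧
      (m - 1 - l.length) * (n - m) ≤ N := by
  have hex : ∃ k, k ≤ N ∧ (TT e0 x k).card < n - m := by
    by_contra hcon
    push Not at hcon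
    have h1 := pos_le e0 x N hN fun j hj => by
      have := hcon j hj.le
      omega
    have := hcon N le_rfl
    omega
  obtain ⟨k, hk⟩ : ∃ k, k = Nat.find hex := ⟨_, rfl⟩
  have hspec := Nat.find_spec hex
  rw [← hk] at hspec
  have hmin : ∀ j < k, ¬ (j ≤ N ∧ (TT e0 x j).card < n - m) := by
    intro j hj
    rw [hk] at hj
    exact Nat.find_min hex hj
  rcases Nat.eq_zero_or_pos k with h0 | h0
  · exfalso
    rw [h0] at hspec
    have h1 : (TT e0 x 0) = univ := rfl
    rw [h1, Finset.card_univ, Fintype.card_fin] at hspec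
    omega
  · obtain ⟨j, rfl⟩ : ∃ j, k = j + 1 := ⟨k - 1, by omega⟩
    have h1 := hmin j (by omega)
    rw [not_and, not_lt] at h1
    have h2 := h1 (by omega)
    have h3 := TT_card_succ e0 x j
    have hI := inv e0 x j
    refine ⟨((dfs e0).st x j).U, hI.nodup, hI.chain, ?_⟩
    have h4 := card_mul_le e0 x j (by omega)
    refine le_trans (Nat.mul_le_mul ?_ h2) (h4.trans (by omega))
    omega

end Pool.Agent.T9h83.RG
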