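import Pool.Agent.R978.UI.Tool

/-!
# Adaptive queries of independent coordinates

A `Machine` queries coordinates of `x : E → Bool` one after the other; the next coordinate depends
on the answers seen so far only.  If it never repeats a query, the number of positive answers
among the first `N` queries has the moment generating function of a binomial variable.
-/

set_option autoImplicit false

namespace Pool.Agent.T9h83.RG

open Finset Pool.Agent.R980
open scoped Classical

/-- a deterministic machine querying coordinates in `E` -/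
structure Machine (E σ : Type) where
  init : σ
  nxt : σ → E
  upd : σ → Bool → σ

namespace Machine

set_option linter.unusedSectionVars false

variable {E σ : Type} [Fintype E] [DecidableEq E] (M : Machine E σ)

/-- the state after `k` queries -/
def st (x : E → Bool) : ℕ → σ
  | 0 => M.init
  | k + 1 => M.upd (st x k) (x (M.nxt (st x k)))

/-- the `k`-th query -/
def q (x : E → Bool) (k : ℕ) : E := M.nxt (M.st x k)

/-- the set of the first `k` queries -/
noncomputable def Qs (x : E → Bool) (k : ℕ) : Finset E := (range k).image (M.q x)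

/-- the number of positive answers among the first `k` queries -/
noncomputable def pos (x : E → Bool) (k : ℕ) : ℕ := ((M.Qs x k).filter fun e => x e = true).card

lemma Qs_succ (x : E → Bool) (k : ℕ) : M.Qs x (k + 1) = insert (M.q x k) (M.Qs x k) := by
  unfold Qs
  rw [Finset.range_add_one, Finset.image_insert]

lemma st_congr {x y : E → Bool} {k : ℕ} (h : ∀ e ∈ M.Qs x k, x e = y e) :
    ∀ j, j ≤ k → M.st y j = M.st x j
  | 0, _ => rfl
  | j + 1, hj => by
    have ih := st_congr h j (by omega)
    have h1 : x (M.nxt (M.st x j)) = y (M.nxt (M.st x j)) := by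
      refine h _ ?_
      exact Finset.mem_image.2 ⟨j, Finset.mem_range.2 (by omega), rfl⟩
    rw [st, st, ih, h1]

lemma Qs_congr {x y : E → Bool} {k : ℕ} (h : ∀ e ∈ M.Qs x k, x e = y e) :
    M.Qs y k = M.Qs x k ∧ M.q y k = M.q x k := by
  have h1 := M.st_congr h
  constructor
  · unfold Qs
    refine Finset.image_congr fun j hj => ?_
    have hj' : j < k := by simpa using hj
    unfold q
    rw [h1 j hj'.le]
  · unfold q
    rw [h1 k le_rfl]

lemma congr_iff {x y : E → Bool} {W : Finset E} (h : ∀ e ∈ W, x e = y e) (k : ℕ) (e : E) :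
    (M.Qs x k = W ∧ M.q x k = e) ↔ (M.Qs y k = W ∧ M.q y k = e) := by
  have aux : ∀ {x y : E → Bool}, (∀ e ∈ W, x e = y e) → (M.Qs x k = W ∧ M.q x k = e) →
      (M.Qs y k = W ∧ M.q y k = e) := by
    rintro x y h ⟨h1, h2⟩
    have h3 := M.Qs_congr (x := x) (y := y) (k := k) (by rw [h1]; exact h)
    exact ⟨h3.1.trans h1, h3.2.trans h2⟩
  exact ⟨aux h, aux fun e he => (h e he).symm⟩

lemma mgf (p θ : ℝ) : ∀ N : ℕ, (∀ x : E → Bool, ∀ k < N, M.q x k ∉ M.Qs x k) →
    bex p (fun x : E → Bool => θ ^ M.pos x N) = (1 + (θ - 1) * p) ^ N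
  | 0, _ => by
    have h1 : (fun x : E → Bool => θ ^ M.pos x 0) = fun _ => 1 := by
      funext x
      simp [pos, Qs]
    rw [h1, bex_const, pow_zero]
  | N + 1, hf => by
    have ih := mgf p θ N fun x k hk => hf x k (by omega)
    obtain ⟨f, hf'⟩ : ∃ f : Finset E × E → (E → Bool) → ℝ, f = fun i x =>
        if M.Qs x N = i.1 ∧ M.q x N = i.2 then θ ^ (i.1.filter fun e => x e = true).card else 0 :=
      ⟨_, rfl⟩
    have bex_sum : ∀ (g : Finset E × E → (E → Bool) → ℝ),
        bex p (fun x => ∑ i, g i x) = ∑ i, bex p (g i) := by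
      intro g
      unfold bex
      rw [Finset.sum_comm]
      exact Finset.sum_congr rfl fun x _ => by rw [Finset.mul_sum]
    have h1 : bex p (fun x : E → Bool => θ ^ M.pos x N) = ∑ i, bex p (f i) := by
      rw [← bex_sum]
      congr 1
      funext x
      rw [Finset.sum_eq_single (M.Qs x N, M.q x N)]
      · rw [hf']
        simp only [and_self, if_true]
        rfl
      · intro i _ hi
        rw [hf']
        refine if_neg fun h => hi ?_
        exact Prod.ext h.1.symm h.2.symm
      · intro h
        exact absurd (Finset.mem_univ _) h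
    have h2 : bex p (fun x : E → Bool => θ ^ M.pos x (N + 1)) =
        ∑ i : Finset E × E, bex p (fun x => f i x * θ ^ (({i.2} : Finset E).filter
          fun e => x e = true).card) := by
      rw [← bex_sum]
      congr 1
      funext x
      rw [Finset.sum_eq_single (M.Qs x N, M.q x N)]
      · rw [hf']
        simp only [and_self, if_true]
        rw [← pow_add]
        congr 1
        rw [pos, Qs_succ, Finset.insert_eq, Finset.filter_union, Finset.card_union_of_disjoint]
        · omega
        · refine Finset.disjoint_filter_filter ?_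
          rw [Finset.disjoint_singleton_left]
          exact hf x N (by omega)
      · intro i _ hi
        rw [hf']
        have : ¬ (M.Qs x N = i.1 ∧ M.q x N = i.2) :=
          fun h => hi (Prod.ext h.1.symm h.2.symm)
        simp only [if_neg this, zero_mul]
      · intro h
        exact absurd (Finset.mem_univ _) h
    rw [h2, pow_succ, ← ih, h1, Finset.sum_mul]
    refine Finset.sum_congr rfl fun i _ => ?_
    by_cases hi : i.2 ∈ i.1
    · have hz : ∀ x, f i x = 0 := by
        intro x
        rw [hf']
        refine if_neg ?_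
        rintro ⟨h3, h4⟩
        refine hf x N (by omega) ?_
        rw [h3, h4]
        exact hi
      have e1 : bex p (f i) = 0 := by
        unfold bex
        exact Finset.sum_eq_zero fun x _ => by rw [hz x, mul_zero]
      have e2 : bex p (fun x => f i x * θ ^ (({i.2} : Finset E).filter
          fun e => x e = true).card) = 0 := by
        unfold bex
        exact Finset.sum_eq_zero fun x _ => by beta_reduce; rw [hz x, zero_mul, mul_zero]
      rw [e1, e2, zero_mul]
    · have h3 := R978UI.stmtIndep E inferInstance inferInstance p i.1 (f i)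
        (fun x => θ ^ (({i.2} : Finset E).filter fun e => x e = true).card) ?_ ?_
      · rw [R978UI.bex_pow_card, Finset.card_singleton, pow_one] at h3
        exact h3
      · intro x y hxy
        have ha := M.congr_iff hxy N i.2
        have hb : (i.1.filter fun e => x e = true).card = (i.1.filter fun e => y e = true).card := by
          congr 1
          refine Finset.filter_congr fun e he => ?_
          rw [hxy e he]
        rw [hf']
        simp only
        rw [hb]
        by_cases hc : M.Qs x N = i.1 ∧ M.q x N = i.2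
        · rw [if_pos hc, if_pos (ha.1 hc)]
        · rw [if_neg hc, if_neg fun h => hc (ha.2 h)]
      · intro x y hxy
        have hb : (({i.2} : Finset E).filter fun e => x e = true) =
            (({i.2} : Finset E).filter fun e => y e = true) := by
          refine Finset.filter_congr fun e he => ?_
          rw [Finset.mem_singleton] at he
          rw [he, hxy i.2 hi]
        simp only [hb]

/-- Chernoff lower tail -/
lemma tail {p τ : ℝ} (h0 : 0 ≤ p) (h1 : p ≤ 1) (hτ0 : 0 < τ) (hτ1 : τ ≤ 1 / 2) {N : ℕ}
    (hf : ∀ x : E → Bool, ∀ k < N, M.q x k ∉ M.Qs x k) {y : ℝ} (hy0 : 0 ≤ y)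
    (hy : y ≤ (1 - 4 * τ) * (p * N)) :
    bex p (fun x : E → Bool => if (M.pos x N : ℝ) ≤ y then (1 : ℝ) else 0) ≤
      Real.exp (-(τ ^ 2 * (p * N))) := by
  have hθ : 0 < 1 - τ := by linarith
  have h2 : bex p (fun x : E → Bool => if (M.pos x N : ℝ) ≤ y then (1 : ℝ) else 0) ≤
      bex p (fun x : E → Bool => (1 - τ) ^ (-y) * (1 - τ) ^ M.pos x N) := by
    refine bex_mono h0 h1 fun x => ?_
    split_ifs with hx
    · rw [← Real.rpow_natCast, ← Real.rpow_add hθ]
      exact Real.one_le_rpow_of_pos_of_le_one_of_nonpos hθ (by linarith) (by linarith)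
    · positivity
  refine h2.trans ?_
  rw [bex_mul, M.mgf p (1 - τ) N hf]
  have h3 := R978UI.pow_bound (p := p) h0 h1 hθ N
  have h4 : (1 - τ) ^ (-y) * (1 + (1 - τ - 1) * p) ^ N ≤
      (1 - τ) ^ (-y) * Real.exp ((1 - τ - 1) * p * N) :=
    mul_le_mul_of_nonneg_left h3 (Real.rpow_nonneg hθ.le _)
  refine h4.trans ?_
  rw [Real.rpow_def_of_pos hθ, ← Real.exp_add]
  refine Real.exp_le_exp.2 ?_
  have hlog : -τ - 2 * τ ^ 2 ≤ Real.log (1 - τ) := by
    have h5 := Real.one_sub_inv_le_log_of_pos hθ
    have h7 : (1 - τ)⁻¹ ≤ 1 + τ + 2 * τ ^ 2 := by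
      rw [inv_le_iff_one_le_mul₀ hθ]
      have h8 : 0 ≤ τ ^ 2 * (1 - 2 * τ) := mul_nonneg (sq_nonneg _) (by linarith)
      nlinarith [h8]
    linarith
  have hp : 0 ≤ p * N := by positivity
  have h5 : y * (-Real.log (1 - τ)) ≤ y * (τ + 2 * τ ^ 2) :=
    mul_le_mul_of_nonneg_left (by linarith) hy0
  have h6 : y * (τ + 2 * τ ^ 2) ≤ (1 - 4 * τ) * (p * N) * (τ + 2 * τ ^ 2) :=
    mul_le_mul_of_nonneg_right hy (by positivity)
  have h7 : (1 - 4 * τ) * (p * N) * (τ + 2 * τ ^ 2) - τ * (p * N) ≤ -(τ ^ 2 * (p * N)) := by
    have h8 : 0 ≤ (p * N) * (τ ^ 2 * (1 + 8 * τ)) := by positivity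
    nlinarith [h8]
  nlinarith [h5, h6, h7]

end Machine

end Pool.Agent.T9h83.RG
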