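import Pool.Agent.T9h83.RG.Cycle

/-!
# Long cycles in `G(n,p)` slightly above `1/n`, and rigidity of cycles over `ℚ`-independent points
-/

set_option autoImplicit false

namespace Pool.Agent.T9h83.RG

open Finset Pool.Agent.R980
open scoped Classical

variable {n : ℕ}

set_option maxHeartbeats 1000000 in
/-- `G(n,(1+δ)/n)` has a cycle of length at least `δ²n/384`, with high probability -/
lemma cycle_prob [NeZero n] {δ p : ℝ} (hδ0 : 0 < δ) (hδ1 : δ ≤ 1 / 4) (hn : 1536 ≤ δ ^ 2 * n)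
    (hp : p = (1 + δ) / n) :
    gnp n p (fun G => ¬ ∃ k, ∃ w : Fin (k + 1) → Fin n, δ ^ 2 * n / 384 ≤ (k : ℝ) + 1 ∧ IsCyc G k w) ≤
      Real.exp (-(δ ^ 3 * n / 32768)) + Real.exp (-(δ ^ 5 * n / 589824)) := by
  have hn0 : (0 : ℝ) < n := by
    by_contra hcon
    have : (n : ℝ) = 0 := le_antisymm (by linarith) (Nat.cast_nonneg n)
    rw [this] at hn
    linarith
  have hn1 : (24576 : ℝ) ≤ n := by
    have h1 : δ ^ 2 ≤ 1 / 16 := by nlinarith
    have h2 : δ ^ 2 * n ≤ 1 / 16 * n := mul_le_mul_of_nonneg_right h1 hn0.le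
    linarith
  obtain ⟨p1, hp1⟩ : ∃ p1, p1 = (1 + δ / 2) / (n : ℝ) := ⟨_, rfl⟩
  have hp10 : 0 < p1 := by rw [hp1]; positivity
  have hp11 : p1 < 1 := by
    rw [hp1, div_lt_one hn0]
    linarith
  have hp1' : 0 < 1 - p1 := by linarith
  have hpp : p - p1 = δ / (2 * n) := by
    rw [hp, hp1]
    field_simp
    ring
  have hple : p ≤ 1 := by
    rw [hp, div_le_one hn0]
    linarith
  have hp0 : 0 ≤ p := by rw [hp]; positivity
  obtain ⟨p2, hp2⟩ : ∃ p2, p2 = (p - p1) / (1 - p1) := ⟨_, rfl⟩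
  have hp20 : 0 ≤ p2 := by
    rw [hp2, hpp]
    positivity
  have hp21 : p2 ≤ 1 := by
    rw [hp2, div_le_one hp1']
    linarith
  have hp22 : δ / (2 * n) ≤ p2 := by
    rw [← hpp, hp2, le_div_iff₀ hp1']
    have : 0 ≤ p - p1 := by rw [hpp]; positivity
    nlinarith
  have hprod : 1 - p = (1 - p1) * (1 - p2) := by
    rw [hp2]
    field_simp
    ring
  have h1 := long_path (n := n) (δ := δ / 2) (p := p1) (by positivity) (by linarith)
    (by nlinarith) hp1
  rw [gnp_eq_bex, two_rounds hprod]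
  have h2 : ∀ x : Edge n → Bool, bex p2 (fun y : Edge n → Bool =>
      if (¬ ∃ k, ∃ w : Fin (k + 1) → Fin n, δ ^ 2 * n / 384 ≤ (k : ℝ) + 1 ∧
        IsCyc (ofBool fun e => x e || y e) k w) then (1 : ℝ) else 0) ≤
      (if (∃ (f : ℕ → Fin n) (L : ℕ), (δ / 2) ^ 2 * n / 32 ≤ L ∧
        IsPath (ofBool x) f L) then (0 : ℝ) else 1) + Real.exp (-(δ ^ 5 * n / 589824)) := by
    intro x
    by_cases hx : ∃ (f : ℕ → Fin n) (L : ℕ), (δ / 2) ^ 2 * n / 32 ≤ L ∧ IsPath (ofBool x) f L
    · rw [if_pos hx, zero_add]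
      obtain ⟨f, L, hL, hf⟩ := hx
      obtain ⟨a, ha⟩ : ∃ a, a = L / 3 := ⟨_, rfl⟩
      obtain ⟨T, hT⟩ : ∃ T, T = δ ^ 2 * n / 384 := ⟨_, rfl⟩
      have hT4 : 4 ≤ T := by rw [hT]; linarith
      have haL : T - 1 ≤ a := by
        have h3 : L ≤ 3 * a + 2 := by omega
        have h4 : (L : ℝ) ≤ 3 * a + 2 := by exact_mod_cast h3
        rw [hT]
        linarith
      have ha2 : 2 ≤ a := by
        have : (2 : ℝ) ≤ a := by linarith
        exact_mod_cast this
      have h3 := close (x := x) (f := f) (L := L) (a := a) hf (by omega) ha2 hp20 hp21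
      refine le_trans (bex_mono hp20 hp21 fun y => ?_) (h3.trans (Real.exp_le_exp.2 ?_))
      · by_cases hy : ∃ k, ∃ w : Fin (k + 1) → Fin n, a ≤ k ∧
            IsCyc (ofBool fun e => x e || y e) k w
        · rw [if_pos hy, if_neg]
          rw [not_not]
          obtain ⟨k, w, hk, hw⟩ := hy
          refine ⟨k, w, ?_, hw⟩
          have : (a : ℝ) ≤ k := by exact_mod_cast hk
          rw [← hT]
          linarith
        · rw [if_neg hy]
          split_ifs <;> norm_num
      · have h4 : T ^ 2 / 2 ≤ (a : ℝ) ^ 2 := by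
          have h5 : (T - 1) ^ 2 ≤ (a : ℝ) ^ 2 := pow_le_pow_left₀ (by linarith) haL 2
          nlinarith
        have h5 : δ / (2 * n) * (T ^ 2 / 2) ≤ p2 * (a : ℝ) ^ 2 :=
          mul_le_mul hp22 h4 (by positivity) hp20
        have h6 : δ / (2 * n) * (T ^ 2 / 2) = δ ^ 5 * n / 589824 := by
          rw [hT]
          field_simp
          ring
        linarith
    · rw [if_neg hx]
      have h3 : bex p2 (fun y : Edge n → Bool =>
          if (¬ ∃ k, ∃ w : Fin (k + 1) → Fin n, δ ^ 2 * n / 384 ≤ (k : ℝ) + 1 ∧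
          IsCyc (ofBool fun e => x e || y e) k w) then (1 : ℝ) else 0) ≤ 1 := by
        refine le_trans (bex_mono (g := fun _ => (1 : ℝ)) hp20 hp21 fun y => ?_)
          (bex_const (E := Edge n) p2 1).le
        split_ifs <;> norm_num
      have h4 := Real.exp_pos (-(δ ^ 5 * n / 589824))
      linarith
  have h3 : bex p1 (fun x : Edge n → Bool => bex p2 (fun y : Edge n → Bool =>
      if (¬ ∃ k, ∃ w : Fin (k + 1) → Fin n, δ ^ 2 * n / 384 ≤ (k : ℝ) + 1 ∧
        IsCyc (ofBool fun e => x e || y e) k w) then (1 : ℝ) else 0)) ≤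
      bex p1 (fun x : Edge n → Bool => (if (∃ (f : ℕ → Fin n) (L : ℕ), (δ / 2) ^ 2 * n / 32 ≤ L ∧
        IsPath (ofBool x) f L) then (0 : ℝ) else 1) + Real.exp (-(δ ^ 5 * n / 589824))) :=
    bex_mono hp10.le hp11.le h2
  have h4 : (δ / 2) ^ 3 * n / 4096 = δ ^ 3 * n / 32768 := by ring
  rw [h4] at h1
  rw [bex_add, bex_const] at h3
  refine le_trans (le_of_eq ?_) (h3.trans (by linarith))
  congr 1
  funext x
  congr 1
  funext y
  congr 1

/-- over `ℚ`-linearly independent points, distances along a cycle determine all distances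
between its vertices -/
lemma cyc_rigid {V φ : Fin n → ℝ} {G : SimpleGraph (Fin n)} (hV : LinearIndependent ℚ V)
    (hφ : ∀ u v, G.Adj u v → |φ u - φ v| = |V u - V v|) {k : ℕ} {w : Fin (k + 1) → Fin n}
    (hw : IsCyc G k w) (i j : Fin (k + 1)) : |φ (w i) - φ (w j)| = |V (w i) - V (w j)| := by
  obtain ⟨hk, hinj, hadj⟩ := hw
  have h1 : ∀ i : Fin (k + 1), ∃ s : ℚ, (s = 1 ∨ s = -1) ∧
      φ (w i) - φ (w (i + 1)) = s * (V (w i) - V (w (i + 1))) := by
    intro i
    rcases abs_eq_abs.1 (hφ _ _ (hadj i)) with h | h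
    · exact ⟨1, Or.inl rfl, by rw [h]; simp⟩
    · exact ⟨-1, Or.inr rfl, by rw [h]; simp⟩
  choose s hs hs2 using h1
  have h2 : ∑ i : Fin (k + 1), ((s i - s (i - 1) : ℚ) : ℝ) * V (w i) = 0 := by
    have h3 : ∑ i : Fin (k + 1), (φ (w i) - φ (w (i + 1))) = 0 := by
      rw [Finset.sum_sub_distrib, sub_eq_zero]
      exact (Equiv.sum_comp (Equiv.addRight (1 : Fin (k + 1))) fun i => φ (w i)).symm
    have h4 : ∑ i : Fin (k + 1), ((s (i - 1) : ℚ) : ℝ) * V (w i) =
        ∑ i : Fin (k + 1), ((s i : ℚ) : ℝ) * V (w (i + 1)) := by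
      rw [← Equiv.sum_comp (Equiv.addRight (1 : Fin (k + 1)))
        fun i => ((s (i - 1) : ℚ) : ℝ) * V (w i)]
      refine Finset.sum_congr rfl fun i _ => ?_
      simp only [Equiv.coe_addRight, add_sub_cancel_right]
    have h5 : ∑ i : Fin (k + 1), ((s i - s (i - 1) : ℚ) : ℝ) * V (w i) =
        ∑ i : Fin (k + 1), ((s i : ℚ) : ℝ) * V (w i) -
        ∑ i : Fin (k + 1), ((s (i - 1) : ℚ) : ℝ) * V (w i) := by
      rw [← Finset.sum_sub_distrib]
      refine Finset.sum_congr rfl fun i _ => ?_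
      push_cast
      ring
    rw [h5, h4, ← Finset.sum_sub_distrib, ← h3]
    refine Finset.sum_congr rfl fun i _ => ?_
    rw [hs2 i]
    ring
  have h3 : ∀ i, s i - s (i - 1) = 0 := by
    have h4 : LinearIndependent ℚ (V ∘ w) := hV.comp w hinj
    refine (Fintype.linearIndependent_iff.1 h4) (fun i => s i - s (i - 1)) ?_
    rw [← h2]
    refine Finset.sum_congr rfl fun i _ => ?_
    rw [Rat.smul_def]
    rfl
  have h4 : ∀ i, s i = s 0 := by
    intro i
    induction i using Fin.induction with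
    | zero => rfl
    | succ i ih =>
      have h5 := h3 i.succ
      have h6 : (i.succ : Fin (k + 1)) - 1 = i.castSucc := by
        rw [sub_eq_iff_eq_add]
        exact Fin.coeSucc_eq_succ.symm
      rw [h6, ih] at h5
      linarith
  have h5 : ∀ i, φ (w i) - s 0 * V (w i) = φ (w 0) - s 0 * V (w 0) := by
    intro i
    induction i using Fin.induction with
    | zero => rfl
    | succ i ih =>
      have h6 := hs2 i.castSucc
      rw [h4, Fin.coeSucc_eq_succ] at h6
      linarith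
  have h6 : φ (w i) - φ (w j) = s 0 * (V (w i) - V (w j)) := by
    have := h5 i
    have := h5 j
    linarith
  rw [h6, abs_mul]
  rcases hs 0 with h7 | h7 <;> rw [h7] <;> simp

end Pool.Agent.T9h83.RG
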